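import Pool.Agent.R544.PQ.Conf

/-!
Almost all multiples of a finite configuration show all words of given length at all positions near
the origin infinitely often.
-/

set_option autoImplicit false

namespace Pool.Agent.Results.MP_cc0c1a_nt.AlmostAllMultiples

open Pool.Agent.H429R2.Auto

/-- The base 6 expansion of the real number `β ≥ 0`: the digit at the position `i` is
`⌊6 ^ i β⌋ mod 6`. The multiple `m x` of the configuration `x = expansion β` is `expansion (m β)`. -/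
noncomputable def expansion (β : ℝ) : Conf :=
  fun i => ⟨⌊(6 : ℝ) ^ i * β⌋₊ % 6, Nat.mod_lt _ (by norm_num)⟩

/-- `x` shows the word `w` of `L` letters starting at the position `j`. -/
def Shows {L : ℕ} (x : Conf) (w : Fin L → Fin 6) (j : ℤ) : Prop := ∀ s : Fin L, x (j + (s : ℕ)) = w s

/-- All words of `L` letters are shown at all positions `j` with `|j| ≤ R` in the orbit of `x` under
`F`, each of them at infinitely many times. -/
def AllShown (L : ℕ) (R : ℝ) (x : Conf) : Prop :=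
  ∀ j : ℤ, (|j| : ℝ) ≤ R → ∀ w : Fin L → Fin 6, {t : ℕ | Shows (F^[t] x) w j}.Infinite

/-- the exponent -/
noncomputable def c (p q h : ℕ) : ℝ :=
  -Real.log (1 - 1 / (q : ℝ) ^ h) / (h * Real.log ((p : ℝ) * q))

/-- the `m < M` such that the fractional part of `m ξ (p/q)^t` is in `[a, b)` only for finitely many
`t` -/
def Exceptions (p q : ℕ) (ξ a b : ℝ) (M : ℕ) : Set ℕ :=
  {m : ℕ | m < M ∧ {t : ℕ | a ≤ Int.fract (m * (ξ * ((p : ℝ) / q) ^ t)) ∧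
    Int.fract (m * (ξ * ((p : ℝ) / q) ^ t)) < b}.Finite}

/-- (1) Every finite configuration `x ≠ 0` is the expansion of a real number `β > 0`, and its
multiples are finite.

(2) Let `L, J ≥ 0`, `M ≥ 1` and `c_L = c 3 2 (3 L + 1) > 0`. For all real `β > 0`, for all but at
most `5 (2 J + 1) 6 ^ (4 L + 1) M ^ (1 - c_L)` of the `m < M`, the orbit of the expansion of `m β`
under `F` shows every word of `L` letters at every position `j` with `|j| ≤ J` infinitely often.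

(3) For every `L` there are `c, C > 0` such that for all `β > 0` and `M ≥ 1` this holds for all
positions with `|j| ≤ M ^ c`, for all but at most `C M ^ (1 - c)` of the `m < M`.

(4) Let `p > q ≥ 2` be coprime, `h ≥ 1`, `0 ≤ a ≤ 1 - 2 q ^ (-h)`. For all real `ξ ≠ 0`, for all but at
most `(p + q) (p q) ^ h M ^ (1 - c p q h)` of the `m < M`, the fractional part of `m ξ (p/q)^t` is in
`[a, a + 2 q ^ (-h))` for infinitely many `t`. -/
theorem result :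
    (∀ x : Conf, IsFin x → x ≠ 0 → ∃ β : ℝ, 0 < β ∧ x = expansion β ∧
      ∀ m : ℕ, IsFin (expansion (m * β))) ∧
    (∀ L : ℕ, 0 < c 3 2 (3 * L + 1) ∧ ∀ β : ℝ, 0 < β → ∀ M : ℕ, 1 ≤ M → ∀ J : ℕ,
      (({m : ℕ | m < M ∧ ¬ AllShown L J (expansion (m * β))}.ncard : ℕ) : ℝ) ≤
        5 * (2 * J + 1) * 6 ^ (4 * L + 1) * (M : ℝ) ^ (1 - c 3 2 (3 * L + 1))) ∧
    (∀ L : ℕ, ∃ c C : ℝ, 0 < c ∧ 0 < C ∧ ∀ β : ℝ, 0 < β → ∀ M : ℕ, 1 ≤ M →
      (({m : ℕ | m < M ∧ ¬ AllShown L ((M : ℝ) ^ c) (expansion (m * β))}.ncard : ℕ) : ℝ) ≤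
        C * (M : ℝ) ^ (1 - c)) ∧
    (∀ p q : ℕ, 2 ≤ q → q < p → Nat.Coprime p q → ∀ h : ℕ, 1 ≤ h → 0 < c p q h ∧
      ∀ ξ : ℝ, ξ ≠ 0 → ∀ a : ℝ, 0 ≤ a → a + 2 / (q : ℝ) ^ h ≤ 1 → ∀ M : ℕ, 1 ≤ M →
        ((Exceptions p q ξ a (a + 2 / (q : ℝ) ^ h) M).ncard : ℝ) ≤
          ((p : ℝ) + q) * ((p : ℝ) * q) ^ h * (M : ℝ) ^ (1 - c p q h)) := by
  have hwin : ∀ L : ℕ, ∀ β : ℝ, 0 < β → ∀ M : ℕ, 1 ≤ M → ∀ J : ℕ,
      (({m : ℕ | m < M ∧ ¬ AllShown L J (expansion (m * β))}.ncard : ℕ) : ℝ) ≤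
        5 * (2 * J + 1) * 6 ^ (4 * L + 1) * (M : ℝ) ^ (1 - c 3 2 (3 * L + 1)) := by
    intro L β hβ M hM J
    have h := Pool.Agent.R544.PQ.window L β hβ M hM J
    have hset : {m : ℕ | m < M ∧ ¬ AllShown L J (expansion (m * β))} =
        {m : ℕ | m < M ∧ ¬ ∀ j : ℤ, |j| ≤ J → ∀ w : Fin L → Fin 6,
          {t : ℕ | Pool.Agent.R544.PQ.Shows (F^[t] (Pool.Agent.R544.PQ.conf (m * β))) w j}.Infinite} := by
      ext m
      refine and_congr_right fun _ => not_congr (forall_congr' fun j => ?_)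
      refine imp_congr ?_ Iff.rfl
      rw [← Int.cast_abs, ← Int.cast_natCast (R := ℝ) J]
      exact Int.cast_le
    rw [hset]
    refine h.trans (le_of_eq ?_)
    show _ = 5 * (2 * (J : ℝ) + 1) * 6 ^ (4 * L + 1) *
      (M : ℝ) ^ (1 - Pool.Agent.R544.PQ.expo 3 2 (3 * L + 1))
    ring
  have hpos : ∀ L : ℕ, 0 < c 3 2 (3 * L + 1) := fun L =>
    Pool.Agent.R544.PQ.expo_pos 3 2 (3 * L + 1) le_rfl (by norm_num) (by omega)
  refine ⟨fun x hx hx0 => ?_, fun L => ⟨hpos L, hwin L⟩, fun L => ?_, ?_⟩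
  · obtain ⟨m0, k, hrep, hm0, _⟩ := exists_rep hx
    have h0 : 0 < m0 := hm0 hx0
    refine ⟨(m0 : ℝ) / 6 ^ k, by positivity, Pool.Agent.R544.PQ.eq_conf hrep, fun m => ?_⟩
    have e : (m : ℝ) * ((m0 : ℝ) / 6 ^ k) = ((m * m0 : ℕ) : ℝ) / 6 ^ k := by
      push_cast
      ring
    rw [e]
    exact Pool.Agent.R544.PQ.conf_fin (m * m0) k
  · obtain ⟨d, hd⟩ : ∃ d, d = c 3 2 (3 * L + 1) := ⟨_, rfl⟩
    have hd0 : 0 < d := by rw [hd]; exact hpos L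
    refine ⟨d / 2, 15 * 6 ^ (4 * L + 1), by linarith, by positivity, fun β hβ M hM => ?_⟩
    have hMR : (1 : ℝ) ≤ M := by exact_mod_cast hM
    have hM0 : (0 : ℝ) < M := by linarith
    set J : ℕ := ⌊(M : ℝ) ^ (d / 2)⌋₊ with hJ
    have h1M : (1 : ℝ) ≤ (M : ℝ) ^ (d / 2) := Real.one_le_rpow hMR (by linarith)
    have hJle : (J : ℝ) ≤ (M : ℝ) ^ (d / 2) := Nat.floor_le (by positivity)
    have hsub : {m : ℕ | m < M ∧ ¬ AllShown L ((M : ℝ) ^ (d / 2)) (expansion (m * β))} ⊆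
        {m : ℕ | m < M ∧ ¬ AllShown L J (expansion (m * β))} := by
      rintro m ⟨hm, hn⟩
      refine ⟨hm, fun hall => hn fun j hj => hall j ?_⟩
      rw [← Int.cast_abs] at hj ⊢
      obtain ⟨n, hn⟩ : ∃ n : ℕ, |j| = n := ⟨j.natAbs, Int.abs_eq_natAbs j⟩
      rw [hn] at hj ⊢
      rw [Int.cast_natCast] at hj ⊢
      exact_mod_cast Nat.le_floor hj
    have h1 : (({m : ℕ | m < M ∧ ¬ AllShown L ((M : ℝ) ^ (d / 2)) (expansion (m * β))}.ncard : ℕ) : ℝ) ≤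
        (({m : ℕ | m < M ∧ ¬ AllShown L J (expansion (m * β))}.ncard : ℕ) : ℝ) := by
      exact_mod_cast Set.ncard_le_ncard hsub ((Set.finite_lt_nat M).subset fun m hm => hm.1)
    have h2 := hwin L β hβ M hM J
    rw [← hd] at h2
    have h3 : (2 * (J : ℝ) + 1) ≤ 3 * (M : ℝ) ^ (d / 2) := by linarith
    have h4 : (M : ℝ) ^ (d / 2) * (M : ℝ) ^ (1 - d) = (M : ℝ) ^ (1 - d / 2) := by
      rw [← Real.rpow_add hM0]
      congr 1
      ring
    calc (({m : ℕ | m < M ∧ ¬ AllShown L ((M : ℝ) ^ (d / 2)) (expansion (m * β))}.ncard : ℕ) : ℝ)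
        ≤ 5 * (2 * J + 1) * 6 ^ (4 * L + 1) * (M : ℝ) ^ (1 - d) := h1.trans h2
      _ ≤ 5 * (3 * (M : ℝ) ^ (d / 2)) * 6 ^ (4 * L + 1) * (M : ℝ) ^ (1 - d) := by gcongr
      _ = 15 * 6 ^ (4 * L + 1) * ((M : ℝ) ^ (d / 2) * (M : ℝ) ^ (1 - d)) := by ring
      _ = 15 * 6 ^ (4 * L + 1) * (M : ℝ) ^ (1 - d / 2) := by rw [h4]
  · intro p q hq hqp hco h hh
    exact ⟨Pool.Agent.R544.PQ.expo_pos p q h hq hqp hh, fun ξ hξ a ha ha1 M hM =>
      Pool.Agent.R544.PQ.exc_bound p q hq hqp hco h hh ξ hξ a ha ha1 M hM⟩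

end Pool.Agent.Results.MP_cc0c1a_nt.AlmostAllMultiples
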