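import Pool.Agent.R544.PQ.Half

/-!
Multiples `m ξ` for which `m ξ (p/q)^t` is eventually in an arc of length `1/q`, and the digits below
and above `3` in the orbits of the multiples of a finite configuration.
-/

set_option autoImplicit false

namespace Pool.Agent.Results.MP_cc0c1a_nt.HalfCircles

open Pool.Agent.H429R2.Auto

/-- The base 6 expansion of the real number `β ≥ 0`: the digit at the position `i` is
`⌊6 ^ i β⌋ mod 6`. The multiple `m x` of the configuration `x = expansion β` is `expansion (m β)`. -/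
noncomputable def expansion (β : ℝ) : Conf :=
  fun i => ⟨⌊(6 : ℝ) ^ i * β⌋₊ % 6, Nat.mod_lt _ (by norm_num)⟩

/-- At the position `j` a digit `0, 1, 2` is shown at infinitely many times and a digit `3, 4, 5` is
shown at infinitely many times. -/
def Both (x : Conf) (j : ℤ) : Prop :=
  {t : ℕ | ((F^[t] x) j : ℕ) < 3}.Infinite ∧ {t : ℕ | 3 ≤ ((F^[t] x) j : ℕ)}.Infinite

/-- the exponent `1 - log q / log p` -/
noncomputable def θ (p q : ℕ) : ℝ := 1 - Real.log q / Real.log p

/-- the `m < M` such that the fractional part of `m ξ (p/q)^t` is in `[0, 1/q)` for all large `t` -/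
def Low (p q : ℕ) (ξ : ℝ) (M : ℕ) : Set ℕ :=
  {m : ℕ | m < M ∧ ∃ t0 : ℕ, ∀ t ≥ t0, Int.fract (m * (ξ * ((p : ℝ) / q) ^ t)) < 1 / q}

/-- the `m < M` such that the fractional part of `m ξ (p/q)^t` is in `(1 - 1/q, 1)` for all large `t` -/
def High (p q : ℕ) (ξ : ℝ) (M : ℕ) : Set ℕ :=
  {m : ℕ | m < M ∧ ∃ t0 : ℕ, ∀ t ≥ t0, 1 - 1 / (q : ℝ) < Int.fract (m * (ξ * ((p : ℝ) / q) ^ t))}

lemma ev_iff (P : ℕ → Prop) : (∃ t0 : ℕ, ∀ t ≥ t0, P t) ↔ {t : ℕ | ¬ P t}.Finite := by
  constructor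
  · rintro ⟨t0, h⟩
    refine (Set.finite_lt_nat t0).subset fun t ht => ?_
    by_contra hcon
    exact ht (h t (not_lt.1 hcon))
  · intro h
    obtain ⟨B, hB⟩ := h.bddAbove
    refine ⟨B + 1, fun t ht => ?_⟩
    by_contra hcon
    have := hB (show t ∈ {t : ℕ | ¬ P t} from hcon)
    omega

/-- (1) Let `p > q ≥ 2` be coprime, `θ = 1 - log q / log p`. For all real `ξ ≠ 0` and `M ≥ 1`, for at
most `p / (p - q) (p (p + q) M / q) ^ θ` of the `m < M` the fractional parts of `m ξ (p/q)^t` are in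
`[0, 1/q)` for all large `t`, and for at most as many of the `m < M` they are in `(1 - 1/q, 1)` for all
large `t`.

(2) Every finite configuration `x ≠ 0` is the expansion of a real number `β > 0`, and its multiples
are finite.

(3) For all real `β > 0`, `M ≥ 1`, `J ≥ 0`, for all but at most `6 (2 J + 1) (7.5 M) ^ θ` of the `m < M`
(`θ = θ 3 2 < 0.37`) in the orbit of the expansion of `m β` under `F` every position `j` with `|j| ≤ J`
shows digits below `3` infinitely often and digits above `2` infinitely often. -/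
theorem result :
    (∀ p q : ℕ, 2 ≤ q → q < p → Nat.Coprime p q → ∀ ξ : ℝ, ξ ≠ 0 → ∀ M : ℕ, 1 ≤ M →
      ((Low p q ξ M).ncard : ℝ) ≤ p / (p - q) * (p * (p + q) / q * M) ^ θ p q ∧
      ((High p q ξ M).ncard : ℝ) ≤ p / (p - q) * (p * (p + q) / q * M) ^ θ p q) ∧
    (∀ x : Conf, IsFin x → x ≠ 0 → ∃ β : ℝ, 0 < β ∧ x = expansion β ∧
      ∀ m : ℕ, IsFin (expansion (m * β))) ∧
    θ 3 2 < 0.37 ∧
    (∀ β : ℝ, 0 < β → ∀ M : ℕ, 1 ≤ M → ∀ J : ℕ,
      (({m : ℕ | m < M ∧ ¬ ∀ j : ℤ, |j| ≤ J → Both (expansion (m * β)) j}.ncard : ℕ) : ℝ) ≤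
        6 * (2 * J + 1) * (7.5 * M) ^ θ 3 2) := by
  have hθ : ∀ p q : ℕ, 2 ≤ q → q < p → θ p q = Real.log ((p : ℝ) / q) / Real.log p := by
    intro p q hq hqp
    have hqR : (2 : ℝ) ≤ q := by exact_mod_cast hq
    have hpR : (q : ℝ) < p := by exact_mod_cast hqp
    have hlogp : 0 < Real.log p := Real.log_pos (by linarith)
    unfold θ
    rw [Real.log_div (by linarith) (by linarith)]
    field_simp
  refine ⟨?_, ?_, ?_, ?_⟩
  · intro p q hq hqp hco ξ hξ M hM
    rw [hθ p q hq hqp]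
    constructor
    · have h := Pool.Agent.R544.PQ.arc_bound p q hq hqp hco ξ hξ M hM
      have e : Low p q ξ M = Pool.Agent.R544.PQ.ArcExc p q ξ M := by
        ext m
        refine and_congr_right fun _ => ?_
        rw [ev_iff]
        simp only [not_lt]
      rw [e]
      exact h
    · have h := Pool.Agent.R544.PQ.arc_upper p q hq hqp hco ξ hξ M hM
      have e : High p q ξ M = {m : ℕ | m < M ∧
          {t : ℕ | Int.fract (m * (ξ * ((p : ℝ) / q) ^ t)) ≤ 1 - 1 / (q : ℝ)}.Finite} := by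
        ext m
        refine and_congr_right fun _ => ?_
        rw [ev_iff]
        simp only [not_lt]
      rw [e]
      exact h
  · intro x hx hx0
    obtain ⟨m0, k, hrep, hm0, _⟩ := exists_rep hx
    have h0 : 0 < m0 := hm0 hx0
    refine ⟨(m0 : ℝ) / 6 ^ k, by positivity, Pool.Agent.R544.PQ.eq_conf hrep, fun m => ?_⟩
    have e : (m : ℝ) * ((m0 : ℝ) / 6 ^ k) = ((m * m0 : ℕ) : ℝ) / 6 ^ k := by
      push_cast
      ring
    rw [e]
    exact Pool.Agent.R544.PQ.conf_fin (m * m0) k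
  · -- `log 2 > 0.63 log 3` as `2 ^ 100 > 3 ^ 63`
    have h3 : 0 < Real.log 3 := Real.log_pos (by norm_num)
    have h1 : 63 * Real.log 3 < 100 * Real.log 2 := by
      have h2 : Real.log ((3 : ℝ) ^ 63) < Real.log ((2 : ℝ) ^ 100) :=
        Real.log_lt_log (by positivity) (by norm_num)
      rw [Real.log_pow, Real.log_pow] at h2
      exact_mod_cast h2
    unfold θ
    have h4 : (0.63 : ℝ) < Real.log ((2 : ℕ) : ℝ) / Real.log ((3 : ℕ) : ℝ) := by
      push_cast
      rw [lt_div_iff₀ h3]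
      linarith
    linarith
  · intro β hβ M hM J
    have h := Pool.Agent.R544.PQ.half_window β hβ M hM J
    refine h.trans (le_of_eq ?_)
    rw [hθ 3 2 le_rfl (by norm_num)]
    unfold Pool.Agent.R544.PQ.hb
    push_cast
    norm_num
    ring

end Pool.Agent.Results.MP_cc0c1a_nt.HalfCircles
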