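import Mathlib
import Pool.Agent.R473.PP.Unp
import Pool.Agent.TH461.AL.ColW
import Pool.Agent.TH461.AL.WbC
import Pool.Agent.H429R2.Auto
import Pool.Agent.Results.MP_cc0c1a_nt.WordsInRowWindows

/-!
# Prediction and compression of the rows and columns of the base-6 automaton

Let `x` be a finite nonzero configuration.  For most times `n` the words in all long windows of the
row `F^n x`, and for most positions `p` the words in all long windows of times of the column at `p`,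
read in either direction, are hard for a given pushdown predictor and for all lossless automata with
`K` states: almost linearly many wrong guesses, almost linearly many steps in which something is
written.

The rows are treated with the starting result `WordsInRowWindows`, the columns with the starting
theorem `Pool.Agent.TH461.AL.ColW.columns`.
-/

set_option autoImplicit false

namespace Pool.Agent.Results.MP_cc0c1a_nt.PredictionAndCompression

open Finset Filter Pool.Agent.R473.PP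
open Pool.Agent.H429R2.Auto (Conf F Rep rep_iter exists_rep)

/-- in a column: if the row `n` shows the base 6 expansion of `12 ^ P` at the cells
`p - P, …, p + P`, then the cells at `p` at the times `n` and `n + P` differ -/
theorem column_differ {x : Conf} {β : ℝ} (hβ : 0 ≤ β) (hx : Rep x β) (p : ℤ) (n P : ℕ) (hP : 1 ≤ P)
    (h : ⌊(6 : ℝ) ^ (p + P) * ((3 / 2) ^ n * β)⌋₊ % 6 ^ (2 * P + 1) = 12 ^ P) :
    F^[n] x p ≠ F^[n + P] x p := by
  obtain ⟨N0, hN0⟩ : ∃ N0, N0 = ⌊(6 : ℝ) ^ (p + P) * ((3 / 2) ^ n * β)⌋₊ := ⟨_, rfl⟩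
  have h1 : ((F^[n] x p : Fin 6) : ℕ) = N0 / 6 ^ P % 6 := by
    rw [rep_iter hβ hx n p, hN0]
    have e : (6 : ℝ) ^ p * ((3 / 2) ^ n * β) =
        ((6 : ℝ) ^ (p + P) * ((3 / 2) ^ n * β)) / ((6 ^ P : ℕ) : ℝ) := by
      rw [zpow_add₀ (by norm_num) p (P : ℤ), zpow_natCast]
      push_cast
      field_simp
    rw [e, Nat.floor_div_natCast]
  have h2 : ((F^[n + P] x p : Fin 6) : ℕ) = N0 / 4 ^ P % 6 := by
    rw [rep_iter hβ hx (n + P) p, hN0]
    have e : (6 : ℝ) ^ p * ((3 / 2) ^ (n + P) * β) =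
        ((6 : ℝ) ^ (p + P) * ((3 / 2) ^ n * β)) / ((4 ^ P : ℕ) : ℝ) := by
      rw [zpow_add₀ (by norm_num) p (P : ℤ), zpow_natCast, pow_add]
      push_cast
      have e1 : (6 : ℝ) ^ P = 4 ^ P * (3 / 2) ^ P := by rw [← mul_pow]; norm_num
      rw [e1]
      field_simp
    rw [e, Nat.floor_div_natCast]
  rw [← hN0] at h
  obtain ⟨z, hz⟩ : ∃ z, N0 = 6 ^ (2 * P + 1) * z + 12 ^ P := by
    refine ⟨N0 / 6 ^ (2 * P + 1), ?_⟩
    rw [← h]
    exact (Nat.div_add_mod _ _).symm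
  have e6 : N0 = 6 ^ P * (6 * 6 ^ P * z + 2 ^ P) := by
    rw [hz, mul_add, ← mul_pow]
    norm_num
    ring
  have e4 : N0 = 4 ^ P * (6 * 9 ^ P * z + 3 ^ P) := by
    rw [hz, mul_add, ← mul_pow]
    have e1 : (4 : ℕ) ^ P * (6 * 9 ^ P * z) = (4 * 9) ^ P * 6 * z := by rw [mul_pow]; ring
    rw [e1]
    norm_num
    rw [pow_succ, pow_mul]
    norm_num
  have h3 : N0 / 6 ^ P = 6 * 6 ^ P * z + 2 ^ P := by
    rw [e6]; exact Nat.mul_div_cancel_left _ (by positivity)
  have h4 : N0 / 4 ^ P = 6 * 9 ^ P * z + 3 ^ P := by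
    conv_lhs => rw [e4]
    exact Nat.mul_div_cancel_left _ (by positivity)
  intro heq
  have h5 : N0 / 6 ^ P % 6 = N0 / 4 ^ P % 6 := by rw [← h1, ← h2, heq]
  rw [h3, h4] at h5
  have h6 : (6 * 6 ^ P * z + 2 ^ P) % 2 = (6 * 9 ^ P * z + 3 ^ P) % 2 := by
    have := congrArg (· % 2) h5
    simpa [Nat.mod_mod_of_dvd] using this
  obtain ⟨P', rfl⟩ : ∃ P', P = P' + 1 := ⟨P - 1, by omega⟩
  have h7 : (6 * 6 ^ (P' + 1) * z + 2 ^ (P' + 1)) % 2 = 0 := by
    have : 6 * 6 ^ (P' + 1) * z + 2 ^ (P' + 1) = 2 * (3 * 6 ^ (P' + 1) * z + 2 ^ P') := by ring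
    rw [this]
    exact Nat.mul_mod_right _ _
  have h8 : (6 * 9 ^ (P' + 1) * z + 3 ^ (P' + 1)) % 2 = 1 := by
    have h9 : (3 ^ (P' + 1)) % 2 = 1 := by
      rw [Nat.pow_mod]; norm_num
    have : 6 * 9 ^ (P' + 1) * z + 3 ^ (P' + 1) = 3 ^ (P' + 1) + 2 * (3 * 9 ^ (P' + 1) * z) := by ring
    rw [this, Nat.add_mul_mod_self_left]
    exact h9
  omega

open Classical in
/-- rows: failures of periodicity -/
theorem rows (x : ℤ → Fin 6) (hfin : {i | x i ≠ 0}.Finite) (hx : ∃ i, x i ≠ 0) (P : ℕ) (hP : 1 ≤ P)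
    (ε κ δ : ℝ) (hε : 0 < ε) (hκ : 0 < κ) (hδ : 0 < δ) :
    ∃ M₀ : ℕ, ∀ s M : ℕ, M₀ ≤ M →
      (((Finset.Ico s (s + M)).filter (fun n : ℕ => ¬ ∀ (p : ℤ) (l : ℕ),
        -((n : ℝ) * (Real.log (3 / 2) / Real.log 6)) ≤ p → p + l ≤ n → ε * n ≤ l →
          (M : ℝ) ^ (1 - κ) ≤ fails (fun i : ℕ => F^[n] x (p + i)) P l)).card : ℝ) ≤ δ * M := by
  obtain ⟨M₀, h⟩ := Pool.Agent.Results.MP_cc0c1a_nt.WordsInRowWindows.result x hfin hx (P + 1)
    ε κ δ hε hκ hδ
  refine ⟨M₀, fun s M hM => le_trans (Nat.cast_le.2 (Finset.card_le_card ?_)) (h s M hM)⟩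
  intro n hn
  rw [Finset.mem_filter] at hn ⊢
  refine ⟨hn.1, fun hall => hn.2 fun p l h1 h2 h3 => ?_⟩
  have h2' : (p : ℝ) + l ≤ n := by exact_mod_cast h2
  have h4 := hall p h1 (by linarith) (1 :: List.replicate P 0) (by simp)
  refine h4.trans (Nat.cast_le.2 ?_)
  unfold fails
  apply Finset.card_le_card_of_injOn (fun a : ℤ => (a - p).toNat)
  · intro a ha
    rw [Finset.mem_coe, Finset.mem_filter, Finset.mem_Icc] at ha
    obtain ⟨⟨ha1, ha2⟩, ha3, ha4⟩ := ha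
    obtain ⟨i, hi⟩ : ∃ i : ℕ, a = p + i := ⟨(a - p).toNat, by omega⟩
    subst hi
    have h5 : (i : ℝ) + (P + 1) ≤ l := by
      push_cast at ha3
      linarith
    have h6 : i + (P + 1) ≤ l := by exact_mod_cast h5
    have e : (p + (i : ℤ) - p).toNat = i := by omega
    rw [Finset.mem_coe, Finset.mem_filter, Finset.mem_range]
    refine ⟨?_, ?_, ?_⟩
    · show (p + (i : ℤ) - p).toNat < l
      omega
    · show (p + (i : ℤ) - p).toNat + P < l
      omega
    have h7 := ha4 0 (by simp)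
    have h8 := ha4 P (by simp)
    rw [List.getElem_cons_zero] at h7
    have h9 : (1 :: List.replicate P (0 : Fin 6))[P]'(by simp) = 0 := by
      obtain ⟨P', rfl⟩ : ∃ P', P = P' + 1 := ⟨P - 1, by omega⟩
      rw [List.getElem_cons_succ, List.getElem_replicate]
    rw [h9] at h8
    show F^[n] x (p + (((p + (i : ℤ) - p).toNat : ℕ) : ℤ)) ≠
      F^[n] x (p + (((p + (i : ℤ) - p).toNat + P : ℕ) : ℤ))
    rw [e]
    have e1 : p + (i : ℤ) + ((0 : ℕ) : ℤ) = p + i := by simp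
    have e2 : p + (i : ℤ) + ((P : ℕ) : ℤ) = p + ((i + P : ℕ) : ℤ) := by push_cast; ring
    rw [e1] at h7
    rw [e2] at h8
    rw [h7, h8]
    decide
  · intro a ha a' ha' he
    rw [Finset.mem_coe, Finset.mem_filter, Finset.mem_Icc] at ha ha'
    have he' : (a - p).toNat = (a' - p).toNat := he
    have := ha.1.1
    have := ha'.1.1
    omega

open Classical in
/-- columns: failures of periodicity -/
theorem columns (x : ℤ → Fin 6) (hfin : {i | x i ≠ 0}.Finite) (hx : ∃ i, x i ≠ 0) (P R : ℕ)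
    (hP : 1 ≤ P) (ε κ δ : ℝ) (hε : 0 < ε) (hκ : 0 < κ) (hκ1 : κ ≤ 1) (hδ : 0 < δ) :
    ∃ M₀ : ℕ, ∀ M : ℕ, M₀ ≤ M →
      (((Finset.Icc (-(M : ℤ)) M).filter (fun p : ℤ => ¬ ∀ s l : ℕ, p ≤ s →
        -((s : ℝ) * (Real.log (3 / 2) / Real.log 6)) ≤ p → s + l ≤ R * M → ε * M ≤ l →
          (M : ℝ) ^ (1 - κ) ≤ fails (fun i : ℕ => F^[s + i] x p) P l)).card : ℝ) ≤ δ * M := by
  obtain ⟨m, k, hrep, hm, -⟩ := exists_rep (x := x) hfin
  have hm : 0 < m := hm (by
    rintro rfl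
    obtain ⟨i, hi⟩ := hx
    exact hi rfl)
  have hβ : (0 : ℝ) ≤ (m : ℝ) / 6 ^ k := by positivity
  obtain ⟨M₁, hM₁⟩ := Pool.Agent.TH461.AL.ColW.columns Pool.Agent.TH461.AL.WbC.wordb (u := 2) (w := 3)
    (by norm_num) (by norm_num) (by norm_num) (m := m) hm k (2 * P + 1) R (ε := ε / 4) (κ := κ)
    (δ := δ / 2) (by positivity) hκ (by positivity)
  obtain ⟨M₂, hM₂⟩ := exists_nat_ge ((6 * (P : ℝ) + ε * P) / (ε / 2))
  refine ⟨max (max M₁ M₂) (max P 1), fun M hM => ?_⟩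
  have e1 : M₁ ≤ M := (le_max_left _ _).trans ((le_max_left _ _).trans hM)
  have e2 : M₂ ≤ M := (le_max_right _ _).trans ((le_max_left _ _).trans hM)
  have e3 : P ≤ M := (le_max_left _ _).trans ((le_max_right _ _).trans hM)
  have e4 : 1 ≤ M := (le_max_right _ _).trans ((le_max_right _ _).trans hM)
  have hMR : (1 : ℝ) ≤ M := by exact_mod_cast e4
  have hl6 : 0 < Real.log 6 := Real.log_pos (by norm_num)
  have hP0 : (0 : ℝ) ≤ P := Nat.cast_nonneg _
  have hbig : 6 * (P : ℝ) + ε * P ≤ ε / 2 * M := by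
    have h1 : (6 * (P : ℝ) + ε * P) / (ε / 2) ≤ M := hM₂.trans (by exact_mod_cast e2)
    rw [div_le_iff₀ (by positivity)] at h1
    linarith
  have hfin1 := hM₁ (M + P) (by omega)
  have hcard : (δ / 2) * ((M + P : ℕ) : ℝ) ≤ δ * M := by
    have : (P : ℝ) ≤ M := by exact_mod_cast e3
    push_cast
    nlinarith
  refine le_trans ?_ (hfin1.trans hcard)
  apply Nat.cast_le.2
  apply Finset.card_le_card_of_injOn (fun p : ℤ => p - P)
  swap
  · intro a _ a' _ he
    have he' : a - (P : ℤ) = a' - P := he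
    omega
  intro p hp
  rw [Finset.mem_coe, Finset.mem_filter, Finset.mem_Icc] at hp
  rw [Finset.mem_coe, Finset.mem_filter, Finset.mem_Icc]
  refine ⟨⟨by push_cast; omega, by push_cast; omega⟩, fun hall => hp.2 fun s l h1 h2 h3 h4 => ?_⟩
  have h6 : ((2 * 3 : ℕ) : ℝ) = 6 := by norm_num
  have h6z : ((2 * 3 : ℕ) : ℤ) = 6 := by norm_num
  have h4' : 6 * P ≤ l := by
    have h5 : 6 * (P : ℝ) ≤ l := by
      have : 0 ≤ ε * P := by positivity
      have : 0 ≤ ε / 2 * (M : ℝ) := by positivity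
      linarith
    exact_mod_cast h5
  obtain ⟨l', hl'⟩ : ∃ l', l = l' + 6 * P := ⟨l - 6 * P, by omega⟩
  have hl'R : (l : ℝ) = l' + 6 * P := by exact_mod_cast hl'
  have hlog32 : 0 < Real.log (3 / 2) := Real.log_pos (by norm_num)
  have hlog5 : Real.log 6 ≤ 5 * Real.log (3 / 2) := by
    have h5 : (5 : ℝ) * Real.log (3 / 2) = Real.log ((3 / 2) ^ 5) := by
      rw [Real.log_pow]; norm_num
    rw [h5]
    exact Real.log_le_log (by norm_num) (by norm_num)
  have hsz : 0 ≤ ((s + 5 * P : ℕ) : ℝ) * Real.log (((3 : ℕ) : ℝ) / ((2 : ℕ) : ℝ)) +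
      ((p - P : ℤ) : ℝ) * Real.log ((2 * 3 : ℕ) : ℝ) := by
    rw [h6]
    push_cast
    have h5 : (s : ℝ) * (Real.log (3 / 2) / Real.log 6) * Real.log 6 = s * Real.log (3 / 2) := by
      field_simp
    have h7 := mul_le_mul_of_nonneg_right h2 hl6.le
    have h8 := mul_le_mul_of_nonneg_left hlog5 hP0
    nlinarith
  have h8 := hall (s + 5 * P) l' (by push_cast; omega) hsz (by
      have : s + l ≤ R * M := by exact_mod_cast h3
      calc s + 5 * P + l' ≤ s + l := by omega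
        _ ≤ R * M := this
        _ ≤ R * (M + P) := Nat.mul_le_mul_left _ (by omega))
    (by push_cast; nlinarith) (12 ^ P) (by
      have h9 : (12 : ℕ) ^ P * 3 ^ P = 6 ^ (2 * P) := by rw [← mul_pow, pow_mul]; norm_num
      have h10 : (12 : ℕ) ^ P ≤ 6 ^ (2 * P) := by
        rw [← h9]
        exact Nat.le_mul_of_pos_right _ (by positivity)
      calc (12 : ℕ) ^ P ≤ 6 ^ (2 * P) := h10
        _ < 6 ^ (2 * P + 1) := Nat.pow_lt_pow_right (by norm_num) (by omega)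
        _ = (2 * 3) ^ (2 * P + 1) := by norm_num)
  have h9 : (M : ℝ) ^ (1 - κ) ≤ ((M + P : ℕ) : ℝ) ^ (1 - κ) :=
    Real.rpow_le_rpow (by positivity) (by push_cast; linarith) (by linarith)
  refine h9.trans (h8.trans (Nat.cast_le.2 ?_))
  unfold fails
  apply Finset.card_le_card_of_injOn (fun n : ℕ => n - s)
  · intro n hn
    rw [Finset.mem_coe, Finset.mem_filter, Finset.mem_Ico] at hn
    obtain ⟨⟨hn1, hn2⟩, hn3⟩ := hn
    rw [Finset.mem_coe, Finset.mem_filter, Finset.mem_range]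
    obtain ⟨i, hi⟩ : ∃ i, n = s + i := ⟨n - s, by omega⟩
    subst hi
    have e : s + i - s = i := by omega
    refine ⟨?_, ?_, ?_⟩
    · show s + i - s < l
      omega
    · show s + i - s + P < l
      omega
    show F^[s + (s + i - s)] x p ≠ F^[s + (s + i - s + P)] x p
    rw [e, ← add_assoc]
    refine column_differ hβ hrep p (s + i) P hP ?_
    rw [h6, h6z] at hn3
    push_cast at hn3
    have h12 : (p - (P : ℤ) + (2 * (P : ℤ) + 1) - 1) = p + P := by ring
    rw [h12] at hn3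
    have h10 : ((⌊(6 : ℝ) ^ (p + P) * ((3 / 2) ^ (s + i) * ((m : ℝ) / 6 ^ k))⌋₊ : ℕ) : ℤ) =
        ⌊(6 : ℝ) ^ (p + P) * ((3 / 2) ^ (s + i) * ((m : ℝ) / 6 ^ k))⌋ := by
      rw [← Int.floor_toNat]
      exact Int.toNat_of_nonneg (Int.floor_nonneg.2 (by positivity))
    rw [← h10] at hn3
    exact_mod_cast hn3
  · intro n hn n' hn' he
    rw [Finset.mem_coe, Finset.mem_filter, Finset.mem_Ico] at hn hn'
    have he' : n - s = n' - s := he
    omega

open Classical in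
/-- Let `x` be a finite nonzero configuration, `A` a pushdown predictor over the alphabet
`{0, …, 5}` with finitely many states and stack symbols, `K`, `R` natural numbers and
`ε, κ, δ > 0`.  There is `M₀` such that for all `M ≥ M₀`:
(1) for all `s`, for all but at most `δ M` of the times `n` with `s ≤ n < s + M`, the words
`F^n x` shows at `p, …, p + l - 1`, `l ≥ ε n`, `-n log_6 (3/2) ≤ p`, `p + l ≤ n`, read in either
direction, are hard: `A`, started in any state, is wrong at least `M ^ (1 - κ)` times before it has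
read them, and every lossless automaton with `K` states writes something in at least `M ^ (1 - κ)`
of the `l` steps in which it reads them;
(2) for all but at most `δ M` of the positions `p` with `-M ≤ p ≤ M` the same holds for the words
`F^s x p, F^(s+1) x p, …, F^(s+l-1) x p` in the column at `p`, `l ≥ ε M`, `s + l ≤ R M`, `p ≤ s`,
`-s log_6 (3/2) ≤ p`. -/
theorem result (x : ℤ → Fin 6) (hfin : {i | x i ≠ 0}.Finite) (hx : ∃ i, x i ≠ 0)
    (Q Γ : Type) [Fintype Q] [Fintype Γ] (A : Predictor 6 Q Γ) (K R : ℕ)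
    (ε κ δ : ℝ) (hε : 0 < ε) (hκ : 0 < κ) (hδ : 0 < δ) :
    ∃ M₀ : ℕ, ∀ M : ℕ, M₀ ≤ M →
      (∀ s : ℕ, (((Finset.Ico s (s + M)).filter (fun n : ℕ => ¬ ∀ (p : ℤ) (l : ℕ),
        -((n : ℝ) * (Real.log (3 / 2) / Real.log 6)) ≤ p → p + l ≤ n → ε * n ≤ l →
          ∀ d : ℕ → Fin 6, ReadsWord (fun i : ℕ => F^[n] x (p + i)) l d →
            Hard A K ((M : ℝ) ^ (1 - κ)) l d)).card : ℝ) ≤ δ * M) ∧
      (((Finset.Icc (-(M : ℤ)) M).filter (fun p : ℤ => ¬ ∀ s l : ℕ, p ≤ s →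
        -((s : ℝ) * (Real.log (3 / 2) / Real.log 6)) ≤ p → s + l ≤ R * M → ε * M ≤ l →
          ∀ d : ℕ → Fin 6, ReadsWord (fun i : ℕ => F^[s + i] x p) l d →
            Hard A K ((M : ℝ) ^ (1 - κ)) l d)).card : ℝ) ≤ δ * M := by
  obtain ⟨P₁, P₂, C, hP₁, hP₂, hhard⟩ := hard_of_fails A K
  set κ' : ℝ := min κ 1 with hκ'
  have hκ'0 : 0 < κ' := lt_min hκ one_pos
  have hκ'1 : κ' ≤ 1 := min_le_right _ _
  obtain ⟨M₁, h1⟩ := rows x hfin hx P₁ hP₁ ε (κ' / 2) (δ / 2) hε (by positivity) (by positivity)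
  obtain ⟨M₂, h2⟩ := rows x hfin hx P₂ hP₂ ε (κ' / 2) (δ / 2) hε (by positivity) (by positivity)
  obtain ⟨M₃, h3⟩ := columns x hfin hx P₁ R hP₁ ε (κ' / 2) (δ / 2) hε (by positivity)
    (by linarith) (by positivity)
  obtain ⟨M₄, h4⟩ := columns x hfin hx P₂ R hP₂ ε (κ' / 2) (δ / 2) hε (by positivity)
    (by linarith) (by positivity)
  have ht : Tendsto (fun T : ℕ => (T : ℝ) ^ (κ' / 2)) atTop atTop :=
    (tendsto_rpow_atTop (by positivity)).comp tendsto_natCast_atTop_atTop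
  obtain ⟨M₅, h5⟩ := (tendsto_atTop.1 ht (2 * (C : ℝ))).exists_forall_of_atTop
  refine ⟨max (max (max M₁ M₂) (max M₃ M₄)) (max M₅ 1), fun M hM => ?_⟩
  have e1 : M₁ ≤ M := ((le_max_left _ _).trans ((le_max_left _ _).trans (le_max_left _ _))).trans hM
  have e2 : M₂ ≤ M := ((le_max_right _ _).trans ((le_max_left _ _).trans (le_max_left _ _))).trans hM
  have e3 : M₃ ≤ M := ((le_max_left _ _).trans ((le_max_right _ _).trans (le_max_left _ _))).trans hM
  have e4 : M₄ ≤ M :=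
    ((le_max_right _ _).trans ((le_max_right _ _).trans (le_max_left _ _))).trans hM
  have e5 : M₅ ≤ M := ((le_max_left _ _).trans (le_max_right _ _)).trans hM
  have e6 : 1 ≤ M := ((le_max_right _ _).trans (le_max_right _ _)).trans hM
  have hMR : (1 : ℝ) ≤ M := by exact_mod_cast e6
  have hC := h5 M e5
  have hpow : (M : ℝ) ^ (1 - κ) ≤ (M : ℝ) ^ (1 - κ') :=
    Real.rpow_le_rpow_of_exponent_le hMR (by have := min_le_left κ 1; linarith)
  have hmono : ∀ (l : ℕ) (d : ℕ → Fin 6), Hard A K ((M : ℝ) ^ (1 - κ')) l d →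
      Hard A K ((M : ℝ) ^ (1 - κ)) l d := by
    intro l d h
    exact ⟨fun q₀ T hT => hpow.trans (h.1 q₀ T hT),
      fun β _ δ' o q₀ hl => hpow.trans (h.2 β δ' o q₀ hl)⟩
  have hsum : δ * M = δ / 2 * M + δ / 2 * M := by ring
  rw [hsum]
  refine ⟨fun s => ?_, ?_⟩
  · refine filt_add' _ _ _ _ ?_ (h1 s M e1) (h2 s M e2)
    intro n hn1 hn2
    rw [not_not] at hn1 hn2 ⊢
    intro p l g1 g2 g3 d hd
    exact hmono l d (hhard _ d l hd M κ' hMR hκ'1 hC (hn1 p l g1 g2 g3) (hn2 p l g1 g2 g3))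
  · refine filt_add' _ _ _ _ ?_ (h3 M e3) (h4 M e4)
    intro p hn1 hn2
    rw [not_not] at hn1 hn2 ⊢
    intro s l g1 g2 g3 g4 d hd
    exact hmono l d (hhard _ d l hd M κ' hMR hκ'1 hC (hn1 s l g1 g2 g3 g4) (hn2 s l g1 g2 g3 g4))

end Pool.Agent.Results.MP_cc0c1a_nt.PredictionAndCompression
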