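import Pool.Agent.Results.MP_cc0c1a_nt.WindowsOfPositions
import Pool.Agent.R482.ST.Star

/-!
# Every word occurs at every position near powers, orbits and other sequences

Let `f_n`, `n = 0, 1, 2, …`, be positive functions on `(a, ∞)`, `a ≥ 0`, such that `f_n(t) / t` is nondecreasing, and such
that the sequence `f_n(t)` has exponent of convergence at most `τ` for each `t > a`: for instance `f_n(t) = t ^ (v_n)` for
exponents `v_n ≥ 1` (`τ = 0`; all powers, the powers `t ^ (3 ^ n)` of Mills, …), the orbits `f_n(t) = g (g (⋯ g (t)))` of any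
map `g` with `g(t) > t` and `g(t) / t` nondecreasing (`τ = 0`; for instance of `t² + c`), and `f_n(t) = v_n t`.
Suppose `τ = 0`. For all `α > a` outside a countable union of sets of Hausdorff dimension less than one (a null set): for every
nonzero finite configuration `x` and every word `w` there is `θ > 0` such that for every `c` and all but finitely many `n` the
word `w` occurs in the orbit of `x` starting at EVERY position `j` with `|j - f_n(α)| ≤ c f_n(α) ^ θ`.
-/

set_option autoImplicit false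

namespace Pool.Agent.Results.MP_cc0c1a_nt.StarshapedPositions

open Pool.Agent.H429R2.Auto Finset MeasureTheory
open WindowsOfPositions (Shows Missed count FC)

/-- the functions `f n` are positive on `(a, ∞)`, `a ≥ 0`, and `f n x / x` is nondecreasing there -/
def Starshaped (a : ℝ) (f : ℕ → ℝ → ℝ) : Prop :=
  0 ≤ a ∧ ∀ n : ℕ, ∀ x y : ℝ, a < x → x ≤ y → 0 < f n x ∧ f n x / x ≤ f n y / y

/-- for each `x > a` the exponent of convergence of the sequence `f n x` is at most `τ` -/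
def ExpLe (a : ℝ) (f : ℕ → ℝ → ℝ) (τ : ℝ) : Prop :=
  ∀ x : ℝ, a < x → ∀ t : ℝ, τ < t → Summable (fun n : ℕ => (f n x) ^ (-t))

open Classical in
lemma main {a : ℝ} {f : ℕ → ℝ → ℝ} (hf : Starshaped a f) (hE : ExpLe a f 0) :
      ∃ E : ℕ → Set ℝ, (∀ k, dimH (E k) < 1) ∧ volume (⋃ k, E k) = 0 ∧
        ∀ α : ℝ, a < α → (∀ k, α ∉ E k) → ∀ x : Conf, IsFin x → x ≠ 0 → ∀ w : List (Fin 6),
          ∃ θ : ℝ, 0 < θ ∧ ∀ c : ℝ, ∃ n₀ : ℕ, ∀ n : ℕ, n₀ ≤ n → ∀ j : ℤ, |(j : ℝ) - f n α| ≤ c * (f n α) ^ θ →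
            ∃ m : ℕ, Shows (F^[m] x) w j := by
  have key : ∀ z : FC × List (Fin 6), ∃ E : Set ℝ, dimH E < 1 ∧ ∀ α : ℝ, a < α → α ∉ E → z.1.1 ≠ 0 →
        ∃ θ : ℝ, 0 < θ ∧ ∀ c : ℝ, ∃ n₀ : ℕ, ∀ n : ℕ, n₀ ≤ n → ∀ j : ℤ, |(j : ℝ) - f n α| ≤ c * (f n α) ^ θ →
            ∃ m : ℕ, Shows (F^[m] z.1.1) z.2 j := by
      rintro ⟨⟨x, hx⟩, w⟩
      by_cases hx0 : x = 0
      · exact ⟨∅, by simp, fun α _ _ h => absurd hx0 h⟩
      obtain ⟨δ, hδ, hδ1, C, hC0, hC⟩ := count x hx hx0 w
      obtain ⟨E, h1, h2⟩ := Pool.Agent.R482.ST.win_nat (Missed x w) hf le_rfl hE (s := 1 - δ) (θ := δ / 2)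
        (by linarith) (by linarith) (fun ε hε => ⟨C, fun X hX => (hC X hX).trans (mul_le_mul_of_nonneg_left
          (Real.rpow_le_rpow_of_exponent_le (by exact_mod_cast hX) (by linarith)) hC0)⟩)
      refine ⟨E, lt_of_le_of_lt h1 ?_, fun α hα hαE _ => ?_⟩
      · rw [ENNReal.ofReal_lt_one, div_lt_one (by linarith)]
        linarith
      · refine ⟨δ / 2, by positivity, fun c => ?_⟩
        obtain ⟨n₀, hn⟩ := h2 α hα hαE c
        refine ⟨n₀, fun n hn1 j hj => ?_⟩
        rcases lt_or_ge j 0 with hj0 | hj0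
        · exfalso
          have h3 : |((0 : ℕ) : ℝ) - f n α| ≤ c * (f n α) ^ (δ / 2) := by
            refine le_trans ?_ hj
            have hv0 : 0 < f n α := (hf.2 n α α hα le_rfl).1
            have hj1 : (j : ℝ) < 0 := by exact_mod_cast hj0
            rw [Nat.cast_zero, zero_sub, abs_neg, abs_of_pos hv0, abs_of_neg (by linarith)]
            linarith
          exact lt_irrefl _ (hn n hn1 0 h3).1
        · lift j to ℕ using hj0
          have h4 := (hn n hn1 j (by exact_mod_cast hj)).2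
          unfold Missed at h4
          rw [Set.mem_setOf_eq] at h4
          push Not at h4
          exact h4
  choose G hG1 hG2 using key
  haveI : Nonempty (FC × List (Fin 6)) := ⟨(⟨0, by
      unfold IsFin
      simp⟩, [])⟩
  obtain ⟨e, he⟩ := exists_surjective_nat (FC × List (Fin 6))
  refine ⟨fun k => G (e k), fun k => hG1 _, ?_, fun α hα hαE x hx hx0 w => ?_⟩
  · rw [measure_iUnion_null_iff]
    intro k
    rw [← hausdorffMeasure_real]
    have h1 := hausdorffMeasure_of_dimH_lt (s := G (e k)) (d := 1) (by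
      rw [ENNReal.coe_one]
      exact hG1 _)
    rw [NNReal.coe_one] at h1
    exact h1
  · obtain ⟨k, hk⟩ := he (⟨x, hx⟩, w)
    have h1 := hαE k
    simp only [hk] at h1
    exact hG2 (⟨x, hx⟩, w) α hα h1 hx0

/-- **Theorem.** Let `f` be starshaped functions on `(a, ∞)` of exponent of convergence `0`. There are sets `E_k`, `k ∈ ℕ`, of
Hausdorff dimension less than one, whose union is a null set, such that for each `α > a` outside of all `E_k`, each nonzero
finite configuration `x` and each word `w` there is `θ > 0` such that for each `c` and all but finitely many `n`, for EVERY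
position `j` with `|j - f_n(α)| ≤ c f_n(α) ^ θ`, some `F^m(x)` shows `w` starting at `j`. The functions `v_n x`, `v_n > 0`, are starshaped on `(0, ∞)`, of exponent `τ` if `v` has exponent of convergence at most
`τ`; the functions `x ^ (v_n)`, `v_n ≥ 1`, are starshaped on `(1, ∞)`, of exponent `0` if the sums of `exp (-t v_n)` converge
for `t > 0`; and the iterates of a map `g` with `g(x) > x` for `x > a` and `g(x) / x` nondecreasing are starshaped on
`(a, ∞)`, of exponent `0`. -/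
theorem result :
    (∀ (a : ℝ) (f : ℕ → ℝ → ℝ), Starshaped a f → ExpLe a f 0 →
      ∃ E : ℕ → Set ℝ, (∀ k, dimH (E k) < 1) ∧ volume (⋃ k, E k) = 0 ∧
        ∀ α : ℝ, a < α → (∀ k, α ∉ E k) → ∀ x : Conf, IsFin x → x ≠ 0 → ∀ w : List (Fin 6),
          ∃ θ : ℝ, 0 < θ ∧ ∀ c : ℝ, ∃ n₀ : ℕ, ∀ n : ℕ, n₀ ≤ n → ∀ j : ℤ, |(j : ℝ) - f n α| ≤ c * (f n α) ^ θ →
            ∃ m : ℕ, Shows (F^[m] x) w j) ∧
    (∀ (v : ℕ → ℝ) (τ : ℝ), (∀ n, 0 < v n) → (∀ t : ℝ, τ < t → Summable (fun n : ℕ => (v n) ^ (-t))) →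
      Starshaped 0 (fun n x => v n * x) ∧ ExpLe 0 (fun n x => v n * x) τ) ∧
    (∀ v : ℕ → ℝ, (∀ n, 1 ≤ v n) → (∀ t : ℝ, 0 < t → Summable fun n : ℕ => Real.exp (-(t * v n))) →
      Starshaped 1 (fun n x => x ^ (v n)) ∧ ExpLe 1 (fun n x => x ^ (v n)) 0) ∧
    (∀ (a : ℝ) (g : ℝ → ℝ), 0 ≤ a → (∀ x y : ℝ, a < x → x ≤ y → g x / x ≤ g y / y) → (∀ x : ℝ, a < x → x < g x) →
      Starshaped a (fun n x => g^[n] x) ∧ ExpLe a (fun n x => g^[n] x) 0) :=
  ⟨fun _ _ hf hE => main hf hE, Pool.Agent.R482.ST.ex_mul, Pool.Agent.R482.ST.ex_pow,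
    Pool.Agent.R482.ST.ex_orbit⟩

end Pool.Agent.Results.MP_cc0c1a_nt.StarshapedPositions
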